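import Pool.Agent.E8helper80.HM.Avg2

/-! The energy form, the `L²` form and the averaging operators. -/

set_option autoImplicit false

open scoped MatrixGroups UpperHalfPlane ContDiff ENNReal Topology Pointwise
open MeasureTheory UpperHalfPlane Filter Pool.Agent.H85R3.HS Pool.Agent.E8helper58.HM

namespace Pool.Agent.E8helper80.HM

variable {Γ Γ' : Subgroup SL(2, ℝ)} {S S' : ℝ} {m : ℕ} {c : Fin m → SL(2, ℝ)}

theorem add_fun (f g : smoothSub Γ) : (f + g).1 = fun w => f.1 w + g.1 w := rfl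

theorem smul_fun (a : ℝ) (f : smoothSub Γ) : (a • f).1 = fun w => a * f.1 w := rfl

/-- The `L²` form. -/
noncomputable def Bf {D : Set ℍ}
    (hI : ∀ F : ℍ → ℝ, CI Γ F → IntegrableOn F D (volume : Measure ℍ)) :
    LinearMap.BilinForm ℝ (smoothSub Γ) :=
  LinearMap.mk₂ ℝ (fun f g : smoothSub Γ => ∫ z in D, f.1 z * g.1 z)
    (fun f f' g => by
      simp only [add_fun, add_mul]
      exact integral_add (hI _ (CI_mul f.2 g.2)) (hI _ (CI_mul f'.2 g.2)))
    (fun a f g => by
      simp only [smul_fun, mul_assoc]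
      rw [integral_const_mul, smul_eq_mul])
    (fun f g g' => by
      simp only [add_fun, mul_add]
      exact integral_add (hI _ (CI_mul f.2 g.2)) (hI _ (CI_mul f.2 g'.2)))
    (fun a f g => by
      simp only [smul_fun, mul_left_comm _ a]
      rw [integral_const_mul, smul_eq_mul])

/-- The energy form. -/
noncomputable def Ef {D : Set ℍ}
    (hI : ∀ F : ℍ → ℝ, CI Γ F → IntegrableOn F D (volume : Measure ℍ)) :
    LinearMap.BilinForm ℝ (smoothSub Γ) :=
  LinearMap.mk₂ ℝ (fun f g : smoothSub Γ => ∫ z in D, gradIn f.1 g.1 z)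
    (fun f f' g => by
      simp only [add_fun, gradIn_add_left f.2.smooth f'.2.smooth]
      exact integral_add (hI _ (CI_gradIn f.2 g.2)) (hI _ (CI_gradIn f'.2 g.2)))
    (fun a f g => by
      simp only [smul_fun, gradIn_const_mul_left f.2.smooth]
      rw [integral_const_mul, smul_eq_mul])
    (fun f g g' => by
      simp only [add_fun, gradIn_add_right g.2.smooth g'.2.smooth]
      exact integral_add (hI _ (CI_gradIn f.2 g.2)) (hI _ (CI_gradIn f.2 g'.2)))
    (fun a f g => by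
      simp only [smul_fun, gradIn_const_mul_right g.2.smooth]
      rw [integral_const_mul, smul_eq_mul])

theorem Bf_apply {D : Set ℍ}
    (hI : ∀ F : ℍ → ℝ, CI Γ F → IntegrableOn F D (volume : Measure ℍ)) (f g : smoothSub Γ) :
    Bf hI f g = ∫ z in D, f.1 z * g.1 z := rfl

theorem Ef_apply {D : Set ℍ}
    (hI : ∀ F : ℍ → ℝ, CI Γ F → IntegrableOn F D (volume : Measure ℍ)) (f g : smoothSub Γ) :
    Ef hI f g = ∫ z in D, gradIn f.1 g.1 z := rfl

theorem pos_of_ne (hM : MovesFar Γ S) (hS : 0 < S) {D : Set ℍ}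
    (hD : IsFundamentalDomain Γ D (volume : Measure ℍ))
    (hI : ∀ F : ℍ → ℝ, CI Γ F → IntegrableOn F D (volume : Measure ℍ))
    (f : smoothSub Γ) (hf : f ≠ 0) : 0 < ∫ z in D, f.1 z * f.1 z := by
  have : Countable Γ := hM.countable hS
  have h0 : 0 ≤ ∫ z in D, f.1 z * f.1 z := integral_nonneg fun z => mul_self_nonneg _
  rcases h0.lt_or_eq with h | h
  · exact h
  exfalso
  have h1 := (integral_eq_zero_iff_of_nonneg (μ := (volume : Measure ℍ).restrict D)
    (f := fun z => f.1 z * f.1 z) (fun z => mul_self_nonneg _) (hI _ (CI_mul f.2 f.2))).mp h.symm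
  have h2 : ∫⁻ z in D, ENNReal.ofReal (f.1 z * f.1 z) = 0 := by
    rw [lintegral_congr_ae (g := fun _ => 0)]
    · simp
    · filter_upwards [h1] with z hz
      rw [hz]
      simp
  have h3 : ∫⁻ z : ℍ, ENNReal.ofReal (f.1 z * f.1 z) = 0 := by
    rw [hD.lintegral_eq_tsum'' (fun z => ENNReal.ofReal (f.1 z * f.1 z))]
    have h4 : ∀ g : Γ, ∫⁻ z in D, ENNReal.ofReal (f.1 (g • z) * f.1 (g • z)) = 0 := by
      intro g
      rw [← h2]
      refine lintegral_congr fun z => ?_
      have h5 : f.1 (g • z) = f.1 z := f.2.invariant g.1 g.2 z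
      rw [h5]
    simp only [h4, tsum_zero]
  have hcont : Continuous f.1 := Sm.continuous f.2.smooth
  have hmeas : Measurable fun z : ℍ => ENNReal.ofReal (f.1 z * f.1 z) :=
    (hcont.mul hcont).measurable.ennreal_ofReal
  rw [lintegral_eq_zero_iff hmeas] at h3
  obtain ⟨z₀, hz₀⟩ : ∃ z, f.1 z ≠ 0 := by
    by_contra hcon
    push Not at hcon
    exact hf (Subtype.ext (funext hcon))
  have h4 : ∀ᶠ z in 𝓝 z₀, f.1 z ≠ 0 := hcont.continuousAt.eventually_ne hz₀
  obtain ⟨ε, hε, hball⟩ := Metric.eventually_nhds_iff_ball.mp h4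
  have h5 : volume (Metric.ball z₀ ε) = 0 := by
    rw [Filter.EventuallyEq, ae_iff] at h3
    refine measure_mono_null (fun w hw => ?_) h3
    have h6 := hball w hw
    have h7 : 0 < f.1 w * f.1 w := mul_self_pos.mpr h6
    simp only [Set.mem_ofPred_eq, Pi.zero_apply]
    exact (ENNReal.ofReal_pos.mpr h7).ne'
  rw [volume_ball] at h5
  exact volume_ball_ne_zero hε h5

theorem lint_eq {D : Set ℍ} {F : ℍ → ℝ} (hF : IntegrableOn F D (volume : Measure ℍ))
    (h0 : ∀ z, 0 ≤ F z) : ∫⁻ z in D, ENNReal.ofReal (F z) = ENNReal.ofReal (∫ z in D, F z) :=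
  (ofReal_integral_eq_lintegral_ofReal hF (Eventually.of_forall h0)).symm

theorem gradSq_nonneg (f : ℍ → ℝ) (z : ℍ) : 0 ≤ gradSq f z := by
  unfold gradSq
  positivity

theorem rayleigh_iff (hM : MovesFar Γ S) (hS : 0 < S) {D : Set ℍ}
    (hD : IsFundamentalDomain Γ D (volume : Measure ℍ))
    (hI : ∀ F : ℍ → ℝ, CI Γ F → IntegrableOn F D (volume : Measure ℍ))
    (f : smoothSub Γ) {t : ℝ} (ht : 0 ≤ t) :
    RayleighLE Γ f.1 t ↔
      ∫ z in D, gradIn f.1 f.1 z ≤ t * ∫ z in D, f.1 z * f.1 z := by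
  have : Countable Γ := hM.countable hS
  have hE : ∫⁻ z in D, ENNReal.ofReal (gradSq f.1 z) =
      ENNReal.ofReal (∫ z in D, gradIn f.1 f.1 z) := by
    have h1 : IntegrableOn (gradSq f.1) D (volume : Measure ℍ) := by
      have := hI _ (CI_gradIn f.2 f.2)
      rwa [show gradIn f.1 f.1 = gradSq f.1 from funext fun z => gradIn_self f.1 z] at this
    rw [lint_eq h1 (gradSq_nonneg _)]
    simp only [gradIn_self]
  have hB : ∫⁻ z in D, ENNReal.ofReal (f.1 z ^ 2) = ENNReal.ofReal (∫ z in D, f.1 z * f.1 z) := by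
    rw [← lint_eq (hI _ (CI_mul f.2 f.2)) (fun z => mul_self_nonneg _)]
    simp only [pow_two]
  have h0 : 0 ≤ ∫ z in D, f.1 z * f.1 z := integral_nonneg fun z => mul_self_nonneg _
  have key : (∫⁻ z in D, ENNReal.ofReal (gradSq f.1 z) ≤
      ENNReal.ofReal t * ∫⁻ z in D, ENNReal.ofReal (f.1 z ^ 2)) ↔
      ∫ z in D, gradIn f.1 f.1 z ≤ t * ∫ z in D, f.1 z * f.1 z := by
    rw [hE, hB, ← ENNReal.ofReal_mul ht, ENNReal.ofReal_le_ofReal_iff (mul_nonneg ht h0)]
  rw [← key]
  constructor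
  · intro h
    exact h D hD
  · intro h D' hD'
    have e1 : ∫⁻ z in D', ENNReal.ofReal (gradSq f.1 z) =
        ∫⁻ z in D, ENNReal.ofReal (gradSq f.1 z) := by
      refine hD'.setLIntegral_eq hD _ fun g z => ?_
      congr 1
      have := (CI_gradIn f.2 f.2).inv g.1 g.2 z
      rw [gradIn_self, gradIn_self] at this
      exact this
    have e2 : ∫⁻ z in D', ENNReal.ofReal (f.1 z ^ 2) =
        ∫⁻ z in D, ENNReal.ofReal (f.1 z ^ 2) := by
      refine hD'.setLIntegral_eq hD _ fun g z => ?_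
      have : f.1 (g • z) = f.1 z := f.2.invariant g.1 g.2 z
      rw [this]
    rw [e1, e2]
    exact h

theorem m_ne_zero (hR : IsReps Γ Γ' c) : (m : ℝ) ≠ 0 := by
  obtain ⟨i, -, -⟩ := hR.2.2 1 Γ'.one_mem
  have := i.pos
  exact_mod_cast this.ne'

theorem exists_perm (hR : IsReps Γ Γ' c) {g : SL(2, ℝ)} (hg : g ∈ Γ') :
    ∃ σ : Fin m → Fin m, Function.Bijective σ ∧ ∀ i, c i * g * (c (σ i))⁻¹ ∈ Γ := by
  have h1 : ∀ i, ∃ j, c i * g * (c j)⁻¹ ∈ Γ := fun i =>
    (hR.2.2 (c i * g) (Γ'.mul_mem (hR.2.1 i) hg)).exists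
  choose σ hσ using h1
  refine ⟨σ, ?_, hσ⟩
  rw [← Finite.injective_iff_bijective]
  intro i j hij
  apply reps_eq hR
  have h2 := Γ.mul_mem (hσ i) (Γ.inv_mem (hσ j))
  rw [← hij] at h2
  have h3 : c i * g * (c (σ i))⁻¹ * (c j * g * (c (σ i))⁻¹)⁻¹ = c i * (c j)⁻¹ := by group
  rwa [h3] at h2

/-- The average of a function. -/
noncomputable def av (c : Fin m → SL(2, ℝ)) (f : ℍ → ℝ) (z : ℍ) : ℝ :=
  (m : ℝ)⁻¹ * ∑ i, f (c i • z)

theorem av_smooth (hR : IsReps Γ Γ' c) {f : ℍ → ℝ} (hf : IsSmoothOn Γ f) :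
    IsSmoothOn Γ' (av c f) where
  smooth := (Sm.sum fun i => Sm.smul hf.smooth (c i)).const_mul _
  invariant g hg z := by
    obtain ⟨σ, hσ, h⟩ := exists_perm hR hg
    unfold av
    congr 1
    rw [← Function.Bijective.sum_comp hσ (fun i => f (c i • z))]
    refine Finset.sum_congr rfl fun i _ => ?_
    rw [← hf.invariant _ (h i) (c (σ i) • z)]
    congr 1
    simp only [mul_smul, inv_smul_smul]

theorem av_eq_self (hR : IsReps Γ Γ' c) {f : ℍ → ℝ} (hf : IsSmoothOn Γ' f) : av c f = f := by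
  funext z
  unfold av
  have h1 : ∀ i, f (c i • z) = f z := fun i => hf.invariant _ (hR.2.1 i) z
  simp only [h1, Finset.sum_const, Finset.card_univ, Fintype.card_fin, nsmul_eq_mul]
  rw [← mul_assoc, inv_mul_cancel₀ (m_ne_zero hR), one_mul]

theorem smooth_mono (hR : IsReps Γ Γ' c) {f : ℍ → ℝ} (hf : IsSmoothOn Γ' f) :
    IsSmoothOn Γ f := ⟨hf.smooth, fun g hg z => hf.invariant g (hR.1 hg) z⟩

/-- The averaging operator. -/
noncomputable def Aop (hR : IsReps Γ Γ' c) : smoothSub Γ →ₗ[ℝ] smoothSub Γ where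
  toFun f := ⟨av c f.1, smooth_mono hR (av_smooth hR f.2)⟩
  map_add' f g := by
    apply Subtype.ext
    funext z
    simp only [add_fun, av, Finset.sum_add_distrib, mul_add]
  map_smul' a f := by
    apply Subtype.ext
    funext z
    simp only [RingHom.id_apply, smul_fun, av]
    rw [← Finset.mul_sum]
    ring

theorem B_formula (hM : MovesFar Γ S) (hS : 0 < S)
    (hR : IsReps Γ Γ' c) {K : Set ℍ}
    (hK : IsCompact K) (hc : ∀ z : ℍ, ∃ g ∈ Γ, g • z ∈ K) {D D1 : Set ℍ}
    (hD : IsFundamentalDomain Γ D (volume : Measure ℍ))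
    (hD1m : MeasurableSet D1) (hD1 : IsFundamentalDomain Γ' D1 (volume : Measure ℍ))
    (hfin : volume D1 < ⊤)
    {f g : ℍ → ℝ} (hf : IsSmoothOn Γ' f) (hg : IsSmoothOn Γ g) :
    ∫ z in D, f z * g z = m * ∫ z in D1, f z * av c g z := by
  have hf' := smooth_mono hR hf
  rw [unfold_eq hM hS hR hK hc hD hD1m hD1 (CI_mul hf' hg), ← integral_const_mul,
    ← integral_finsetSum]
  · refine integral_congr_ae (Eventually.of_forall fun z => ?_)
    simp only [av]
    have h1 : ∀ i, f (c i • z) = f z := fun i => hf.invariant _ (hR.2.1 i) z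
    simp only [h1]
    rw [← Finset.mul_sum]
    have := m_ne_zero hR
    field_simp
  · intro i _
    exact (CI_mul hf' hg).integrableOn hK hc (c i) hfin

theorem E_formula (hM : MovesFar Γ S) (hS : 0 < S)
    (hR : IsReps Γ Γ' c) {K : Set ℍ}
    (hK : IsCompact K) (hc : ∀ z : ℍ, ∃ g ∈ Γ, g • z ∈ K) {D D1 : Set ℍ}
    (hD : IsFundamentalDomain Γ D (volume : Measure ℍ))
    (hD1m : MeasurableSet D1) (hD1 : IsFundamentalDomain Γ' D1 (volume : Measure ℍ))
    (hfin : volume D1 < ⊤)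
    {f g : ℍ → ℝ} (hf : IsSmoothOn Γ' f) (hg : IsSmoothOn Γ g) :
    ∫ z in D, gradIn f g z = m * ∫ z in D1, gradIn f (av c g) z := by
  have hf' := smooth_mono hR hf
  rw [unfold_eq hM hS hR hK hc hD hD1m hD1 (CI_gradIn hf' hg), ← integral_const_mul,
    ← integral_finsetSum]
  · refine integral_congr_ae (Eventually.of_forall fun z => ?_)
    have h1 : ∀ i, gradIn f g (c i • z) = gradIn f (fun w => g (c i • w)) z := by
      intro i
      rw [← gradIn_smul hf.smooth hg.smooth]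
      have h2 : (fun w => f (c i • w)) = f := funext fun w => hf.invariant _ (hR.2.1 i) w
      rw [h2]
    have h3 : gradIn f (av c g) z = (m : ℝ)⁻¹ * ∑ i, gradIn f (fun w => g (c i • w)) z := by
      unfold av
      rw [gradIn_const_mul_right (Sm.sum fun i => Sm.smul hg.smooth (c i)),
        gradIn_sum_right (fun i => Sm.smul hg.smooth (c i))]
    simp only [h1, h3]
    have := m_ne_zero hR
    field_simp
  · intro i _
    exact (CI_gradIn hf' hg).integrableOn hK hc (c i) hfin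

theorem avg : S_AVG := by
  intro Γ S hM hS ⟨K, hK, hc⟩
  obtain ⟨D, hDm, hD⟩ := hM.exists_domain hS
  have hDfin : volume D < ⊤ := (hM.volume_le_of_cover hS hD hc).trans_lt hK.measure_lt_top
  have hI : ∀ F : ℍ → ℝ, CI Γ F → IntegrableOn F D (volume : Measure ℍ) :=
    fun F hF => hF.integrableOn' hK hc hDfin
  refine ⟨Ef hI, Bf hI, ?_, ?_, ?_, ?_, ?_, ?_⟩
  · intro f g
    rw [Ef_apply, Ef_apply]
    simp only [gradIn_comm f.1 g.1]
  · intro f g
    rw [Bf_apply, Bf_apply]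
    simp only [mul_comm]
  · intro f
    rw [Ef_apply]
    refine integral_nonneg fun z => ?_
    change 0 ≤ gradIn f.1 f.1 z
    rw [gradIn_self]
    exact gradSq_nonneg _ _
  · intro f hf
    rw [Bf_apply]
    exact pos_of_ne hM hS hD hI f hf
  · intro f t ht
    rw [Ef_apply, Bf_apply]
    exact rayleigh_iff hM hS hD hI f ht
  · intro Γ' S' m c hM' hS' hR
    obtain ⟨D1, hD1m, hD1⟩ := hM'.exists_domain hS'
    have hc' : ∀ z : ℍ, ∃ g ∈ Γ', g • z ∈ K := fun z => by
      obtain ⟨g, hg, h⟩ := hc z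
      exact ⟨g, hR.1 hg, h⟩
    have hfin : volume D1 < ⊤ := (hM'.volume_le_of_cover hS' hD1 hc').trans_lt hK.measure_lt_top
    have hA : ∀ f : smoothSub Γ, (Aop hR f).1 = av c f.1 := fun f => rfl
    refine ⟨Aop hR, fun f z => rfl, fun f => av_smooth hR f.2,
      fun f hf => Subtype.ext (av_eq_self hR hf), ?_, ?_⟩
    · intro f g
      rw [Ef_apply, Ef_apply, hA, hA,
        E_formula hM hS hR hK hc hD hD1m hD1 hfin (av_smooth hR f.2) g.2]
      simp only [gradIn_comm f.1 (av c g.1)]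
      rw [E_formula hM hS hR hK hc hD hD1m hD1 hfin (av_smooth hR g.2) f.2]
      simp only [gradIn_comm (av c g.1) (av c f.1)]
    · intro f g
      rw [Bf_apply, Bf_apply, hA, hA,
        B_formula hM hS hR hK hc hD hD1m hD1 hfin (av_smooth hR f.2) g.2]
      simp only [mul_comm (f.1 _) (av c g.1 _)]
      rw [B_formula hM hS hR hK hc hD hD1m hD1 hfin (av_smooth hR g.2) f.2]
      simp only [mul_comm (av c g.1 _) (av c f.1 _)]

end Pool.Agent.E8helper80.HM
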