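import Pool.Agent.E8helper58.HM.Stm

/-! The inner product of gradients, and continuous invariant functions. -/

set_option autoImplicit false

open scoped MatrixGroups UpperHalfPlane ContDiff ENNReal Topology
open MeasureTheory UpperHalfPlane Filter Pool.Agent.H85R3.HS Pool.Agent.E8helper58.HM

namespace Pool.Agent.E8helper80.HM

/-- Smoothness on `ℍ`. -/
def Sm (f : ℍ → ℝ) : Prop := ContDiffOn ℝ ∞ (f ∘ ofComplex) {z : ℂ | 0 < z.im}

theorem isOpenU : IsOpen {z : ℂ | 0 < z.im} := isOpen_upperHalfPlaneSet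

theorem Sm.at {f : ℍ → ℝ} (hf : Sm f) (w : ℍ) : ContDiffAt ℝ ∞ (f ∘ ofComplex) (w : ℂ) :=
  ContDiffOn.contDiffAt hf (isOpenU.mem_nhds w.im_pos)

theorem Sm.diff {f : ℍ → ℝ} (hf : Sm f) (w : ℍ) : DifferentiableAt ℝ (f ∘ ofComplex) (w : ℂ) :=
  (hf.at w).differentiableAt (by simp)

theorem Sm.continuous {f : ℍ → ℝ} (hf : Sm f) : Continuous f := by
  have h1 : ContinuousOn (f ∘ ofComplex) {z : ℂ | 0 < z.im} := ContDiffOn.continuousOn hf
  have h2 : Continuous fun z : ℍ => (f ∘ ofComplex) (z : ℂ) :=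
    h1.comp_continuous UpperHalfPlane.continuous_coe fun z => z.im_pos
  refine h2.congr fun z => ?_
  simp only [Function.comp, ofComplex_apply]

theorem Sm.smul {f : ℍ → ℝ} (hf : Sm f) (h : SL(2, ℝ)) : Sm fun w => f (h • w) := by
  intro p hp
  obtain ⟨w, rfl⟩ : ∃ w : ℍ, (w : ℂ) = p := ⟨⟨p, hp⟩, rfl⟩
  have h1 : ((fun w : ℍ => f (h • w)) ∘ ofComplex) = (f ∘ ofComplex) ∘ mob h :=
    funext (comp_mob f h)
  rw [h1]
  have hw : mob h (w : ℂ) = ((h • w : ℍ) : ℂ) := by simp [mob, ofComplex_apply]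
  have h2 : ContDiffAt ℝ ∞ (f ∘ ofComplex) (mob h (w : ℂ)) := by
    rw [hw]
    exact hf.at _
  exact (h2.comp (w : ℂ) (contDiffAt_mob h w)).contDiffWithinAt

theorem Sm.add {f g : ℍ → ℝ} (hf : Sm f) (hg : Sm g) : Sm fun w => f w + g w :=
  ContDiffOn.add hf hg

theorem Sm.const_mul {f : ℍ → ℝ} (hf : Sm f) (c : ℝ) : Sm fun w => c * f w :=
  contDiffOn_const.mul hf

theorem Sm.sum {m : ℕ} {f : Fin m → ℍ → ℝ} (hf : ∀ i, Sm (f i)) : Sm fun w => ∑ i, f i w := by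
  have h1 : ((fun w : ℍ => ∑ i, f i w) ∘ ofComplex) = fun p => ∑ i, (f i ∘ ofComplex) p := rfl
  unfold Sm
  rw [h1]
  exact ContDiffOn.sum fun i _ => hf i

/-- The derivative in the direction `v`. -/
noncomputable def dd (v : ℂ) (f : ℍ → ℝ) (z : ℍ) : ℝ := fderiv ℝ (f ∘ ofComplex) (z : ℂ) v

theorem Sm.continuous_dd {f : ℍ → ℝ} (hf : Sm f) (v : ℂ) : Continuous (dd v f) := by
  have h1 : ContinuousOn (fderiv ℝ (f ∘ ofComplex)) {z : ℂ | 0 < z.im} :=
    ContDiffOn.continuousOn_fderiv_of_isOpen hf isOpenU (by simp)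
  have h2 : Continuous fun z : ℍ => fderiv ℝ (f ∘ ofComplex) (z : ℂ) :=
    h1.comp_continuous UpperHalfPlane.continuous_coe fun z => z.im_pos
  exact h2.clm_apply continuous_const

theorem dd_add {f g : ℍ → ℝ} (hf : Sm f) (hg : Sm g) (v : ℂ) (z : ℍ) :
    dd v (fun w => f w + g w) z = dd v f z + dd v g z := by
  unfold dd
  have h1 : ((fun w => f w + g w) ∘ ofComplex) = fun p => (f ∘ ofComplex) p + (g ∘ ofComplex) p := rfl
  rw [h1, fderiv_fun_add (hf.diff z) (hg.diff z)]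
  rfl

theorem dd_const_mul {f : ℍ → ℝ} (hf : Sm f) (c : ℝ) (v : ℂ) (z : ℍ) :
    dd v (fun w => c * f w) z = c * dd v f z := by
  unfold dd
  have h1 : ((fun w => c * f w) ∘ ofComplex) = fun p => c * (f ∘ ofComplex) p := rfl
  rw [h1, fderiv_const_mul (hf.diff z)]
  simp

theorem dd_sum {m : ℕ} {f : Fin m → ℍ → ℝ} (hf : ∀ i, Sm (f i)) (v : ℂ) (z : ℍ) :
    dd v (fun w => ∑ i, f i w) z = ∑ i, dd v (f i) z := by
  unfold dd
  have h1 : ((fun w : ℍ => ∑ i, f i w) ∘ ofComplex) = fun p => ∑ i, (f i ∘ ofComplex) p := rfl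
  rw [h1, fderiv_fun_sum fun i _ => (hf i).diff z]
  simp

/-- The inner product of the gradients. -/
noncomputable def gradIn (f g : ℍ → ℝ) (z : ℍ) : ℝ :=
  z.im ^ 2 * (dd 1 f z * dd 1 g z + dd Complex.I f z * dd Complex.I g z)

theorem gradIn_self (f : ℍ → ℝ) (z : ℍ) : gradIn f f z = gradSq f z := by
  unfold gradIn gradSq dd
  ring

theorem gradIn_comm (f g : ℍ → ℝ) (z : ℍ) : gradIn f g z = gradIn g f z := by
  unfold gradIn
  ring

theorem gradIn_add_left {f f' : ℍ → ℝ} (hf : Sm f) (hf' : Sm f') (g : ℍ → ℝ) (z : ℍ) :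
    gradIn (fun w => f w + f' w) g z = gradIn f g z + gradIn f' g z := by
  unfold gradIn
  rw [dd_add hf hf', dd_add hf hf']
  ring

theorem gradIn_add_right {f f' : ℍ → ℝ} (hf : Sm f) (hf' : Sm f') (g : ℍ → ℝ) (z : ℍ) :
    gradIn g (fun w => f w + f' w) z = gradIn g f z + gradIn g f' z := by
  unfold gradIn
  rw [dd_add hf hf', dd_add hf hf']
  ring

theorem gradIn_const_mul_left {f : ℍ → ℝ} (hf : Sm f) (c : ℝ) (g : ℍ → ℝ) (z : ℍ) :
    gradIn (fun w => c * f w) g z = c * gradIn f g z := by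
  unfold gradIn
  rw [dd_const_mul hf, dd_const_mul hf]
  ring

theorem gradIn_const_mul_right {f : ℍ → ℝ} (hf : Sm f) (c : ℝ) (g : ℍ → ℝ) (z : ℍ) :
    gradIn g (fun w => c * f w) z = c * gradIn g f z := by
  unfold gradIn
  rw [dd_const_mul hf, dd_const_mul hf]
  ring

theorem gradIn_sum_right {m : ℕ} {f : Fin m → ℍ → ℝ} (hf : ∀ i, Sm (f i)) (g : ℍ → ℝ) (z : ℍ) :
    gradIn g (fun w => ∑ i, f i w) z = ∑ i, gradIn g (f i) z := by
  unfold gradIn
  rw [dd_sum hf, dd_sum hf, ← Finset.mul_sum, Finset.sum_add_distrib, Finset.mul_sum,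
    Finset.mul_sum]

theorem gradIn_polar {f g : ℍ → ℝ} (hf : Sm f) (hg : Sm g) (z : ℍ) :
    gradIn f g z = (gradSq (fun w => f w + g w) z - gradSq f z - gradSq g z) / 2 := by
  rw [← gradIn_self, ← gradIn_self, ← gradIn_self, gradIn_add_left hf hg,
    gradIn_add_right hf hg, gradIn_add_right hf hg, gradIn_comm g f]
  ring

/-- The inner product is invariant under isometries. -/
theorem gradIn_smul {f g : ℍ → ℝ} (hf : Sm f) (hg : Sm g) (h : SL(2, ℝ)) (z : ℍ) :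
    gradIn (fun w => f (h • w)) (fun w => g (h • w)) z = gradIn f g (h • z) := by
  rw [gradIn_polar (hf.smul h) (hg.smul h), gradIn_polar hf hg,
    gradSq_smul f h z (hf.diff _), gradSq_smul g h z (hg.diff _),
    gradSq_smul (fun w => f w + g w) h z ((hf.add hg).diff _)]

theorem continuous_gradIn {f g : ℍ → ℝ} (hf : Sm f) (hg : Sm g) : Continuous (gradIn f g) :=
  (UpperHalfPlane.continuous_im.pow 2).mul
    (((hf.continuous_dd 1).mul (hg.continuous_dd 1)).add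
      ((hf.continuous_dd Complex.I).mul (hg.continuous_dd Complex.I)))

/-- Continuous invariant functions. -/
structure CI (Γ : Subgroup SL(2, ℝ)) (F : ℍ → ℝ) : Prop where
  cont : Continuous F
  inv : ∀ g ∈ Γ, ∀ z : ℍ, F (g • z) = F z

theorem CI.bounded {Γ : Subgroup SL(2, ℝ)} {F : ℍ → ℝ} (hF : CI Γ F) {K : Set ℍ}
    (hK : IsCompact K) (hc : ∀ z : ℍ, ∃ g ∈ Γ, g • z ∈ K) : ∃ C : ℝ, ∀ z, ‖F z‖ ≤ C := by
  obtain ⟨C, hC⟩ := hK.exists_bound_of_continuousOn hF.cont.continuousOn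
  refine ⟨C, fun z => ?_⟩
  obtain ⟨g, hg, hgz⟩ := hc z
  rw [← hF.inv g hg z]
  exact hC _ hgz

theorem CI_mul {Γ : Subgroup SL(2, ℝ)} {f g : ℍ → ℝ} (hf : IsSmoothOn Γ f)
    (hg : IsSmoothOn Γ g) : CI Γ fun z => f z * g z where
  cont := (Sm.continuous hf.smooth).mul (Sm.continuous hg.smooth)
  inv k hk z := by rw [hf.invariant k hk, hg.invariant k hk]

theorem CI_gradIn {Γ : Subgroup SL(2, ℝ)} {f g : ℍ → ℝ} (hf : IsSmoothOn Γ f)
    (hg : IsSmoothOn Γ g) : CI Γ (gradIn f g) where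
  cont := continuous_gradIn hf.smooth hg.smooth
  inv k hk z := by
    rw [← gradIn_smul hf.smooth hg.smooth]
    have h1 : (fun w => f (k • w)) = f := funext fun w => hf.invariant k hk w
    have h2 : (fun w => g (k • w)) = g := funext fun w => hg.invariant k hk w
    rw [h1, h2]

end Pool.Agent.E8helper80.HM
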