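import Pool.Agent.E8helper80.HM.Avg1

/-! Unfolding integrals over a fundamental domain of a subgroup. -/

set_option autoImplicit false

open scoped MatrixGroups UpperHalfPlane ContDiff ENNReal Topology Pointwise
open MeasureTheory UpperHalfPlane Filter Pool.Agent.H85R3.HS Pool.Agent.E8helper58.HM

namespace Pool.Agent.E8helper80.HM

variable {Γ Γ' : Subgroup SL(2, ℝ)} {S S' : ℝ} {m : ℕ} {c : Fin m → SL(2, ℝ)}

theorem reps_eq (hR : IsReps Γ Γ' c) {i j : Fin m} (h : c i * (c j)⁻¹ ∈ Γ) : i = j := by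
  obtain ⟨k, _, hk⟩ := hR.2.2 (c i) (hR.2.1 i)
  have h1 := hk i (by simp)
  have h2 := hk j h
  rw [h1, h2]

theorem union_domain (hR : IsReps Γ Γ' c) {D1 : Set ℍ}
    (hD1m : MeasurableSet D1) (hD1 : IsFundamentalDomain Γ' D1 (volume : Measure ℍ)) :
    IsFundamentalDomain Γ (⋃ i, c i • D1) (volume : Measure ℍ) where
  nullMeasurableSet := (MeasurableSet.iUnion fun i => hD1m.const_smul (c i)).nullMeasurableSet
  ae_covers := by
    filter_upwards [hD1.ae_covers] with x hx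
    obtain ⟨g', hg'⟩ := hx
    obtain ⟨i, hi, -⟩ := hR.2.2 (g'.1)⁻¹ (Γ'.inv_mem g'.2)
    have h1 : c i * g'.1 ∈ Γ := by
      have := Γ.inv_mem hi
      simpa using this
    refine ⟨⟨_, h1⟩, Set.mem_iUnion.mpr ⟨i, ?_⟩⟩
    rw [Set.mem_smul_set_iff_inv_smul_mem]
    have h2 : (c i)⁻¹ • ((⟨_, h1⟩ : Γ) • x) = g' • x := by
      change (c i)⁻¹ • ((c i * g'.1) • x) = g'.1 • x
      rw [mul_smul, inv_smul_smul]
    rw [h2]
    exact hg'
  aedisjoint := by
    intro g g' hne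
    change AEDisjoint volume (g • ⋃ i, c i • D1) (g' • ⋃ i, c i • D1)
    rw [Set.smul_set_iUnion, Set.smul_set_iUnion]
    refine AEDisjoint.iUnion_left_iff.mpr fun i => AEDisjoint.iUnion_right_iff.mpr fun j => ?_
    have hi : g.1 * c i ∈ Γ' := Γ'.mul_mem (hR.1 g.2) (hR.2.1 i)
    have hj : g'.1 * c j ∈ Γ' := Γ'.mul_mem (hR.1 g'.2) (hR.2.1 j)
    have h1 : (⟨_, hi⟩ : Γ') ≠ ⟨_, hj⟩ := by
      intro h
      have h2 : g.1 * c i = g'.1 * c j := congrArg Subtype.val h
      have h3 : c i * (c j)⁻¹ ∈ Γ := by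
        have h4 : c i * (c j)⁻¹ = g.1⁻¹ * g'.1 := by
          rw [mul_inv_eq_iff_eq_mul, mul_assoc, eq_inv_mul_iff_mul_eq, h2]
        rw [h4]
        exact Γ.mul_mem (Γ.inv_mem g.2) g'.2
      have h5 := reps_eq hR h3
      subst h5
      exact hne (Subtype.ext (mul_right_cancel h2))
    have h2 := hD1.aedisjoint h1
    have e1 : g • c i • D1 = (⟨_, hi⟩ : Γ') • D1 := by
      change g.1 • c i • D1 = (g.1 * c i) • D1
      rw [mul_smul]
    have e2 : g' • c j • D1 = (⟨_, hj⟩ : Γ') • D1 := by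
      change g'.1 • c j • D1 = (g'.1 * c j) • D1
      rw [mul_smul]
    rw [e1, e2]
    exact h2

theorem reps_aedisjoint (hR : IsReps Γ Γ' c) {D1 : Set ℍ}
    (hD1 : IsFundamentalDomain Γ' D1 (volume : Measure ℍ)) :
    Pairwise (Function.onFun (AEDisjoint (volume : Measure ℍ)) fun i => c i • D1) := by
  intro i j hij
  have h1 : (⟨c i, hR.2.1 i⟩ : Γ') ≠ (⟨c j, hR.2.1 j⟩ : Γ') := by
    intro h
    have h2 : c i = c j := congrArg Subtype.val h
    exact hij (reps_eq hR (by rw [h2, mul_inv_cancel]; exact Γ.one_mem))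
  have h2 := hD1.aedisjoint h1
  change AEDisjoint volume (c i • D1) (c j • D1)
  exact h2

theorem CI.integrableOn {F : ℍ → ℝ} (hF : CI Γ F) {K : Set ℍ}
    (hK : IsCompact K) (hc : ∀ z : ℍ, ∃ g ∈ Γ, g • z ∈ K) (h : SL(2, ℝ)) {D : Set ℍ}
    (hD : volume D < ⊤) :
    IntegrableOn (fun z => F (h • z)) D (volume : Measure ℍ) := by
  obtain ⟨C, hC⟩ := hF.bounded hK hc
  have hcont : Continuous fun z : ℍ => F (h • z) := hF.cont.comp (continuous_const_smul h)
  refine Measure.integrableOn_of_bounded hD.ne hcont.aestronglyMeasurable (M := C) ?_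
  exact Eventually.of_forall fun z => hC _

theorem CI.integrableOn' {F : ℍ → ℝ} (hF : CI Γ F) {K : Set ℍ}
    (hK : IsCompact K) (hc : ∀ z : ℍ, ∃ g ∈ Γ, g • z ∈ K) {D : Set ℍ}
    (hD : volume D < ⊤) :
    IntegrableOn F D (volume : Measure ℍ) := by
  have := hF.integrableOn hK hc 1 hD
  simpa using this

theorem unfold_eq (hM : MovesFar Γ S) (hS : 0 < S)
    (hR : IsReps Γ Γ' c) {K : Set ℍ}
    (hK : IsCompact K) (hc : ∀ z : ℍ, ∃ g ∈ Γ, g • z ∈ K) {D D1 : Set ℍ}
    (hD : IsFundamentalDomain Γ D (volume : Measure ℍ))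
    (hD1m : MeasurableSet D1) (hD1 : IsFundamentalDomain Γ' D1 (volume : Measure ℍ))
    {F : ℍ → ℝ} (hF : CI Γ F) :
    ∫ z in D, F z = ∑ i, ∫ z in D1, F (c i • z) := by
  have : Countable Γ := hM.countable hS
  have hU := union_domain hR hD1m hD1
  have hUfin : volume (⋃ i, c i • D1) < ⊤ :=
    (hM.volume_le_of_cover hS hU hc).trans_lt hK.measure_lt_top
  rw [hD.setIntegral_eq hU (fun g z => hF.inv g.1 g.2 z),
    integral_iUnion_ae (fun i => (hD1m.const_smul (c i)).nullMeasurableSet)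
      (reps_aedisjoint hR hD1) (hF.integrableOn' hK hc hUfin), tsum_fintype]
  refine Finset.sum_congr rfl fun i _ => ?_
  exact (measurePreserving_smul (c i) (volume : Measure ℍ)).setIntegral_image_emb
    (measurableEmbedding_const_smul (c i)) F D1

end Pool.Agent.E8helper80.HM
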